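import Pool.Agent.H23.DF.TargetsL
import Pool.Agent.H31.FW.TargetsL

/-!
F_LP: the complete sums modulo a prime.
-/

set_option autoImplicit false

open Finset NumberField

namespace Pool.Agent.H48.DF.LP

open Pool.Agent.H29.TC (MC LC AC)
open Pool.Agent.H23.LB

theorem conj_inv {F : Type} [Field F] {η : F → ℂ} (hη : MC η) {z : F} (hz : z ≠ 0) :
    (starRingEnd ℂ) (η z) = η z⁻¹ := by
  have h1 : ‖η z‖ = 1 := hη.unit z (isUnit_iff_ne_zero.2 hz)
  have h2 : η z * η z⁻¹ = 1 := by
    rw [← hη.mul, mul_inv_cancel₀ hz, hη.one]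
  have h3 : η z * (starRingEnd ℂ) (η z) = 1 := by
    rw [Complex.mul_conj, Complex.normSq_eq_norm_sq, h1]
    simp
  have h4 : η z ≠ 0 := by
    intro h
    rw [h, norm_zero] at h1
    exact zero_ne_one h1
  exact mul_left_cancel₀ h4 (h3.trans h2.symm)

theorem zero_val {F : Type} [Field F] {η : F → ℂ} (hη : MC η) : η 0 = 0 :=
  hη.zero 0 (by simp)

theorem sum_field {F : Type} [Field F] [Fintype F] (η : F → ℂ) (hη : MC η) (π : F)
    (h2 : (2 : F) ≠ 0) (hπ : π ≠ 0) (hne : ∃ u : F, u ≠ 0 ∧ η u ≠ 1) :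
    ‖∑ y, η (y + π) * (starRingEnd ℂ) (η (y - π))‖ ≤ 1 := by
  classical
  let χ : MulChar F ℂ :=
    { toFun := η, map_one' := hη.one, map_mul' := hη.mul, map_nonunit' := hη.zero }
  have hχ : χ ≠ 1 := by
    intro h
    obtain ⟨u, hu, hu'⟩ := hne
    apply hu'
    have h3 : χ u = 1 := by
      rw [h, MulChar.one_apply (isUnit_iff_ne_zero.2 hu)]
    exact h3
  have hsum : ∑ a : F, η a = 0 := MulChar.sum_eq_zero_of_ne_one hχ
  have h3 : ∑ y, η (y + π) * (starRingEnd ℂ) (η (y - π)) =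
      ∑ y ∈ Finset.univ.erase π, η ((y + π) / (y - π)) := by
    rw [← Finset.add_sum_erase _ _ (Finset.mem_univ π), sub_self, zero_val hη, map_zero, mul_zero,
      zero_add]
    refine Finset.sum_congr rfl fun y hy => ?_
    have hy' : y - π ≠ 0 := sub_ne_zero.2 (Finset.ne_of_mem_erase hy)
    rw [conj_inv hη hy', ← hη.mul, div_eq_mul_inv]
  have h4 : ∑ y ∈ Finset.univ.erase π, η ((y + π) / (y - π)) =
      ∑ w ∈ Finset.univ.erase (1 : F), η w := by
    refine Finset.sum_nbij' (fun y => (y + π) / (y - π)) (fun w => π * (w + 1) / (w - 1)) ?_ ?_ ?_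
      ?_ ?_
    · intro y hy
      have hy' : y - π ≠ 0 := sub_ne_zero.2 (Finset.ne_of_mem_erase hy)
      refine Finset.mem_erase.2 ⟨?_, Finset.mem_univ _⟩
      intro h
      rw [div_eq_one_iff_eq hy'] at h
      have h5 : (2 : F) * π = 0 := by linear_combination h
      exact (mul_ne_zero h2 hπ) h5
    · intro w hw
      have hw' : w - 1 ≠ 0 := sub_ne_zero.2 (Finset.ne_of_mem_erase hw)
      refine Finset.mem_erase.2 ⟨?_, Finset.mem_univ _⟩
      intro h
      rw [div_eq_iff hw'] at h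
      have h5 : π * 2 = 0 := by linear_combination h
      exact (mul_ne_zero hπ h2) h5
    · intro y hy
      have hy' : y - π ≠ 0 := sub_ne_zero.2 (Finset.ne_of_mem_erase hy)
      have h6 : (y + π) / (y - π) - 1 = 2 * π / (y - π) := by
        field_simp
        ring
      have h7 : (y + π) / (y - π) + 1 = 2 * y / (y - π) := by
        field_simp
        ring
      change π * ((y + π) / (y - π) + 1) / ((y + π) / (y - π) - 1) = y
      rw [h6, h7]
      field_simp
    · intro w hw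
      have hw' : w - 1 ≠ 0 := sub_ne_zero.2 (Finset.ne_of_mem_erase hw)
      have h6 : π * (w + 1) / (w - 1) + π = 2 * π * w / (w - 1) := by
        field_simp
        ring
      have h7 : π * (w + 1) / (w - 1) - π = 2 * π / (w - 1) := by
        field_simp
        ring
      change (π * (w + 1) / (w - 1) + π) / (π * (w + 1) / (w - 1) - π) = w
      rw [h6, h7]
      field_simp
    · intro y _
      rfl
  have h5 : ∑ w ∈ Finset.univ.erase (1 : F), η w = -1 := by
    have h6 := Finset.add_sum_erase Finset.univ η (Finset.mem_univ (1 : F))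
    rw [hsum, hη.one] at h6
    linear_combination h6
  rw [h3, h4, h5]
  simp

theorem mc_mul {R : Type} [CommRing R] {η η' : R → ℂ} (hη : MC η) (hη' : MC η') :
    MC (fun x => η x * (starRingEnd ℂ) (η' x)) := by
  refine ⟨?_, ?_, ?_, ?_⟩
  · simp [hη.one, hη'.one]
  · intro x y
    simp only [hη.mul, hη'.mul, map_mul]
    ring
  · intro x hx
    rw [norm_mul, RCLike.norm_conj, hη.unit x hx, hη'.unit x hx, mul_one]
  · intro x hx
    rw [hη.zero x hx, zero_mul]

theorem lp_field (hMY : Pool.Agent.H23.DF.V_MY) (hMX : Pool.Agent.H31.FW.Q_MX) (R : Type)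
    [CommRing R] [Fintype R] (hR : IsField R) (η η' : R → ℂ) (π : R)
    (hη : MC η) (hη' : MC η') (h2 : (2 : R) ≠ 0) (hπ : π ≠ 0) (hne : ∃ u : R, IsUnit u ∧ η u ≠ 1) :
    (∀ θ : R → ℂ, AC θ → ‖∑ Y, η (Y + π) * (starRingEnd ℂ) (η (Y - π)) * θ Y‖ ≤
      2 * Real.sqrt (Fintype.card R)) ∧
    ‖∑ Y, η (Y + π) * (starRingEnd ℂ) (η (Y - π))‖ ≤ 1 ∧
    (∀ x, x ≠ 0 → ‖∑ Y, η (Y + x + π) * (starRingEnd ℂ) (η (Y + x - π)) *
      (starRingEnd ℂ) (η' (Y + π) * (starRingEnd ℂ) (η' (Y - π)))‖ ≤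
        3 * Real.sqrt (Fintype.card R)) ∧
    (η ≠ η' → ‖∑ Y, η (Y + π) * (starRingEnd ℂ) (η (Y - π)) *
      (starRingEnd ℂ) (η' (Y + π) * (starRingEnd ℂ) (η' (Y - π)))‖ ≤ 1) := by
  let _ := hR.toField
  let χ : MulChar R ℂ :=
    { toFun := η, map_one' := hη.one, map_mul' := hη.mul, map_nonunit' := hη.zero }
  let χ' : MulChar R ℂ :=
    { toFun := η', map_one' := hη'.one, map_mul' := hη'.mul, map_nonunit' := hη'.zero }
  have hχ : χ ≠ 1 := by
    intro h
    obtain ⟨u, hu, hu'⟩ := hne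
    apply hu'
    have h3 : χ u = 1 := by
      rw [h, MulChar.one_apply hu]
    exact h3
  obtain ⟨u, hu, hu'⟩ := hne
  refine ⟨?_, ?_, ?_, ?_⟩
  · intro θ hθ
    let ψ : AddChar R ℂ :=
      { toFun := θ, map_zero_eq_one' := hθ.zero, map_add_eq_mul' := hθ.add }
    have h3 := hMX R χ ψ (2 * π) hχ (mul_ne_zero h2 hπ)
    have h4 : ∑ Y, η (Y + π) * (starRingEnd ℂ) (η (Y - π)) * θ Y =
        θ π * ∑ y : R, χ (y + 2 * π) * (starRingEnd ℂ) (χ y) * ψ y := by
      rw [← Equiv.sum_comp (Equiv.addRight π), Finset.mul_sum]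
      refine Finset.sum_congr rfl fun y _ => ?_
      have h5 : y + π + π = y + 2 * π := by ring
      have h6 : y + π - π = y := by ring
      simp only [Equiv.coe_addRight]
      rw [h5, h6, hθ.add]
      change η (y + 2 * π) * (starRingEnd ℂ) (η y) * (θ y * θ π) =
        θ π * (η (y + 2 * π) * (starRingEnd ℂ) (η y) * θ y)
      ring
    rw [h4, norm_mul, hθ.norm, one_mul]
    exact h3
  · exact sum_field η hη π h2 hπ ⟨u, hu.ne_zero, hu'⟩
  · intro x hx
    have h3 := hMY R χ χ' π x hχ h2 hπ hx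
    have h4 : ∑ Y, η (Y + x + π) * (starRingEnd ℂ) (η (Y + x - π)) *
        (starRingEnd ℂ) (η' (Y + π) * (starRingEnd ℂ) (η' (Y - π))) =
        ∑ y : R, χ (y + (x + π)) * (starRingEnd ℂ) (χ (y + (x - π))) *
          ((starRingEnd ℂ) (χ' (y + π)) * χ' (y - π)) := by
      refine Finset.sum_congr rfl fun y _ => ?_
      have h5 : y + x + π = y + (x + π) := by ring
      have h6 : y + x - π = y + (x - π) := by ring
      rw [h5, h6, map_mul, Complex.conj_conj]
      rfl
    rw [h4]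
    exact h3
  · intro hne'
    have h3 := sum_field (fun x => η x * (starRingEnd ℂ) (η' x)) (mc_mul hη hη') π h2 hπ ?_
    · have h4 : ∑ Y, η (Y + π) * (starRingEnd ℂ) (η (Y - π)) *
          (starRingEnd ℂ) (η' (Y + π) * (starRingEnd ℂ) (η' (Y - π))) =
          ∑ y : R, η (y + π) * (starRingEnd ℂ) (η' (y + π)) *
            (starRingEnd ℂ) (η (y - π) * (starRingEnd ℂ) (η' (y - π))) := by
        refine Finset.sum_congr rfl fun y _ => ?_
        simp only [map_mul, Complex.conj_conj]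
        ring
      rw [h4]
      exact h3
    · obtain ⟨v, hv⟩ := Function.ne_iff.1 hne'
      have hv0 : IsUnit v := by
        by_contra h
        exact hv ((hη.zero v h).trans (hη'.zero v h).symm)
      refine ⟨v, hv0.ne_zero, ?_⟩
      intro h
      apply hv
      have h5 : (starRingEnd ℂ) (η' v) * η' v = 1 := by
        rw [mul_comm, Complex.mul_conj, Complex.normSq_eq_norm_sq, hη'.unit v hv0]
        simp
      calc η v = η v * ((starRingEnd ℂ) (η' v) * η' v) := by rw [h5, mul_one]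
        _ = η v * (starRingEnd ℂ) (η' v) * η' v := by ring
        _ = η' v := by
          have h' : η v * (starRingEnd ℂ) (η' v) = 1 := h
          rw [h', one_mul]

theorem pf_LP (hMY : Pool.Agent.H23.DF.V_MY) (hMX : Pool.Agent.H31.FW.Q_MX) :
    Pool.Agent.H23.DF.F_LP := by
  intro K _ _ P hPp hP h2 _ η η' π hη hη' hπ
  have hmax : P.IsMaximal := hPp.isMaximal hP
  have hfield : IsField (𝓞 K ⧸ P) :=
    Ideal.Quotient.maximal_ideal_iff_isField_quotient _ |>.1 hmax
  have hcard : (Fintype.card (𝓞 K ⧸ P) : ℝ) = Nf K P := by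
    unfold Nf
    rw [Ideal.absNorm_apply, Submodule.cardQuot_apply, Nat.card_eq_fintype_card]
  have h2' : (2 : 𝓞 K ⧸ P) ≠ 0 := by
    intro h
    apply h2
    rw [← Ideal.Quotient.eq_zero_iff_mem, map_ofNat]
    exact h
  have h1 : (1 : 𝓞 K ⧸ P) ≠ 0 := by
    have := Ideal.Quotient.nontrivial_iff.2 hPp.ne_top
    exact one_ne_zero
  obtain ⟨r, hr, hr'⟩ := hη.prim 1 h1
  have h3 := lp_field hMY hMX _ hfield η η' π hη.mc hη'.mc h2' hπ ⟨_, hr, hr'⟩
  rw [hcard] at h3
  exact h3

end Pool.Agent.H48.DF.LP
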