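import Pool.Agent.H29.DF.Targets

/-!
# Dihedral `L`-functions of real quadratic fields: module XE1 (the convexity bound)
-/

set_option autoImplicit false

open MeasureTheory Set Filter NumberField
open scoped Real nonZeroDivisors Matrix MatrixGroups

namespace Pool.Agent.H48.DF

open Pool.Agent.H31.CN Pool.Agent.H89.FM Pool.Agent.H61.FM Pool.Agent.H89.FC Pool.Agent.H95.FC
open Pool.Agent.H89.DF Pool.Agent.H95.DR Pool.Agent.H29.DF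

theorem x1_cG_pos (m : ℕ) (t : ℝ) : 0 < cG m t := by
  unfold cG
  have h1 : 0 < Real.sqrt (((m : ℝ) + 1) ^ 2 + t ^ 2) := Real.sqrt_pos.2 (by positivity)
  have h2 : (0 : ℝ) < m.factorial := by exact_mod_cast m.factorial_pos
  positivity

theorem x1_tum_norm (m : ℕ) (t : ℝ) : ‖tum m t‖ = 1 := Complex.norm_exp_ofReal_mul_I _

theorem x1_tum_re (m : ℕ) (t : ℝ) : 0 < (tum m t).re := by
  unfold tum
  rw [Complex.exp_ofReal_mul_I_re]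
  exact Real.cos_arctan_pos _

theorem x1_nm_pos {K : Type} [Field K] [NumberField K] (J : (Ideal (𝓞 K))⁰) :
    (0 : ℝ) < nm J := by
  have h : Ideal.absNorm (J : Ideal (𝓞 K)) ≠ 0 := Ideal.absNorm_ne_zero_of_nonZeroDivisors J
  unfold nm
  exact_mod_cast Nat.pos_of_ne_zero h

theorem x1_psi {K : Type} [Field K] [NumberField K] {σ σ' : K →+* ℝ} {f κ : ℕ} {ν : ℝ}
    {ψ : Ideal (𝓞 K) → ℂ} (h : RCr K σ σ' f κ ν ψ) (I : Ideal (𝓞 K)) : ‖ψ I‖ ≤ 1 := by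
  by_cases h1 : Pool.Agent.H95.CF.Pr K f I
  · exact (h.abs I h1).le
  · rw [h.van I h1, norm_zero]
    exact zero_le_one

/-- the norm of the factor of the level -/
theorem x1_w {D f : ℕ} (hD : 0 < D) (hf : 0 < f) (s : ℂ) :
    ‖((f : ℂ) ^ 2 * D) ^ (s / 2)‖ = ((f : ℝ) * Real.sqrt D) ^ s.re := by
  have hD' : (0 : ℝ) < D := by exact_mod_cast hD
  have hf' : (0 : ℝ) < f := by exact_mod_cast hf
  have h1 : ((f : ℂ) ^ 2 * D) = (((f : ℝ) ^ 2 * D : ℝ) : ℂ) := by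
    push_cast
    rfl
  rw [h1, Complex.norm_cpow_eq_rpow_re_of_pos (by positivity)]
  have h2 : (f : ℝ) ^ 2 * D = ((f : ℝ) * Real.sqrt D) ^ (2 : ℝ) := by
    rw [Real.rpow_two, mul_pow, Real.sq_sqrt hD'.le]
  have h3 : (s / 2).re = s.re / 2 := by
    rw [Complex.div_re]
    simp
    ring
  rw [h2, ← Real.rpow_mul (by positivity), h3]
  congr 1
  ring

theorem pf_XE1 (hLFK : T_LFKr) (hKRB : T_KRBr) (hCRL : T_CRL) (hGML : T_GMLc)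
    (hKSM : T_KSM) : T_EX1 := by
  intro ε hε
  obtain ⟨C₁, k₁, hC₁, hC⟩ := hCRL
  obtain ⟨C₂, k₂, c, hC₂, hc, hK⟩ := hKRB
  obtain ⟨C₃, k₃, hC₃, hG⟩ := hGML
  obtain ⟨C₄, k₄, hC₄, hS⟩ := hKSM ε hε c hc
  refine ⟨(C₁ * (C₂ * C₄ * C₃) * (1 + C₁) ^ (k₂ + k₄ + k₃)) ^ 2,
    2 * (k₁ + (k₁ + 1) * (k₂ + k₄ + k₃)), by positivity, ?_⟩
  intro K _ _ σ σ' D f κ ν ψ F s κ₀ hRQ hR hF hs hκ
  have hκ0 : 0 ≤ κ₀ := (abs_nonneg _).trans hs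
  have hs8 : |s.re - 1 / 2| ≤ 1 / 8 := hs.trans hκ
  obtain ⟨hs1, hs2⟩ := abs_le.1 hs8
  have hsre : 0 < s.re := by linarith
  have hs1' : s ≠ 1 := by
    intro h
    rw [h, Complex.one_re] at hs2
    linarith
  obtain ⟨T, hT⟩ : ∃ T : ℝ, T = 1 + |s.im| + |ν| := ⟨_, rfl⟩
  have hT1 : 1 ≤ T := by
    rw [hT]
    have h1 := abs_nonneg s.im
    have h2 := abs_nonneg ν
    linarith
  obtain ⟨m, hm, hb⟩ := hC κ ν s hs8
  rw [← hT] at hm hb ⊢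
  obtain ⟨M, hM⟩ : ∃ M : ℝ, M = 1 + |s.im| + m := ⟨_, rfl⟩
  have hM1 : 1 ≤ M := by
    rw [hM]
    have h1 := abs_nonneg s.im
    have h2 : (0 : ℝ) ≤ m := Nat.cast_nonneg m
    linarith
  have hMT : M ≤ (1 + C₁) * T ^ (k₁ + 1) := by
    have h1 : T ≤ T ^ (k₁ + 1) := le_self_pow₀ hT1 (Nat.succ_ne_zero k₁)
    have h2 : T ^ k₁ ≤ T ^ (k₁ + 1) := pow_le_pow_right₀ hT1 (Nat.le_succ k₁)
    have h3 : C₁ * T ^ k₁ ≤ C₁ * T ^ (k₁ + 1) := mul_le_mul_of_nonneg_left h2 hC₁.le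
    have h4 : 1 + |s.im| ≤ T := by
      rw [hT]
      linarith [abs_nonneg ν]
    rw [hM]
    linarith
  have hD := hRQ.pos
  have hf := hR.pos
  have hD' : (1 : ℝ) ≤ D := by exact_mod_cast hD
  have hf' : (1 : ℝ) ≤ f := by exact_mod_cast hf
  obtain ⟨Y, hY⟩ : ∃ Y : ℝ, Y = (f : ℝ) * Real.sqrt D := ⟨_, rfl⟩
  have hY1 : 1 ≤ Y := by
    rw [hY]
    have h1 : 1 ≤ Real.sqrt D := Real.one_le_sqrt.2 hD'
    nlinarith
  have hY0 : 0 < Y := by linarith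
  have hLF := hLFK K σ σ' D f κ ν ψ F hRQ hR hF (m : ℤ) (tum m s.im) s (x1_tum_norm m _)
    (x1_tum_re m _) hsre hs1'
  rw [Int.natAbs_natCast, ← hY] at hLF
  obtain ⟨hSm, hSb⟩ := hS K Y M s.re hRQ.rk hY1 hM1 hs8
  have hKb : ∀ r : ℝ, 0 < r → ‖Krr κ m ν (tum m s.im) s r‖ ≤ C₂ * M ^ k₂ * cG m s.im *
      ((r ^ (-s.re) + r ^ (s.re - 1)) * Real.exp (-(c * r / M))) := by
    intro r hr
    have h1 := ((hK κ (m : ℤ) ν s hs8).2 r hr).2.1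
    rw [Int.natAbs_natCast, Int.cast_natCast, Nat.abs_cast, ← hM] at h1
    rw [← mul_assoc]
    exact h1
  have hbd : ‖gM m s * crr κ m ν s * ((f : ℂ) ^ 2 * D) ^ (s / 2) * F s‖ ≤
      C₂ * M ^ k₂ * cG m s.im * (C₄ * M ^ k₄ * Y ^ (1 + ε)) := by
    have h1 := hSm.hasSum.mul_left (C₂ * M ^ k₂ * cG m s.im)
    have hcG := x1_cG_pos m s.im
    refine (hLF.norm_le_of_bounded h1 fun J => ?_).trans
      (mul_le_mul_of_nonneg_left hSb (by positivity))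
    rw [norm_mul]
    have h2 := hKb ((nm J : ℝ) / Y) (div_pos (x1_nm_pos J) hY0)
    calc ‖ψ J‖ * ‖Krr κ m ν (tum m s.im) s ((nm J : ℝ) / Y)‖
        ≤ 1 * ‖Krr κ m ν (tum m s.im) s ((nm J : ℝ) / Y)‖ :=
          mul_le_mul_of_nonneg_right (x1_psi hR _) (norm_nonneg _)
      _ ≤ _ := by
          rw [one_mul]
          exact h2
  have hcG := x1_cG_pos m s.im
  have hG1 := hG m s hs8
  rw [← hM] at hG1
  rw [norm_mul, norm_mul, norm_mul, x1_w hD hf, ← hY] at hbd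
  obtain ⟨a, ha⟩ : ∃ a : ℝ, a = ‖gM m s‖ := ⟨_, rfl⟩
  obtain ⟨b, hb'⟩ : ∃ b : ℝ, b = ‖crr κ m ν s‖ := ⟨_, rfl⟩
  obtain ⟨x, hx⟩ : ∃ x : ℝ, x = ‖F s‖ := ⟨_, rfl⟩
  rw [← ha] at hbd hG1
  rw [← hb'] at hbd hb
  rw [← hx] at hbd
  rw [← hx]
  have hx0 : 0 ≤ x := by rw [hx]; exact norm_nonneg _
  have hb0 : 0 ≤ b := by rw [hb']; exact norm_nonneg _
  have ha0 : 0 < a := by
    by_contra h
    push Not at h
    have h1 : C₃ * M ^ k₃ * a ≤ 0 := mul_nonpos_of_nonneg_of_nonpos (by positivity) h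
    linarith
  have hYs : 0 < Y ^ s.re := Real.rpow_pos_of_pos hY0 _
  -- divide by the Gamma factor
  have h5 : b * Y ^ s.re * x ≤ C₂ * C₄ * C₃ * M ^ (k₂ + k₄ + k₃) * Y ^ (1 + ε) := by
    have h6 : a * (b * Y ^ s.re * x) ≤
        a * (C₂ * C₄ * C₃ * M ^ (k₂ + k₄ + k₃) * Y ^ (1 + ε)) := by
      calc a * (b * Y ^ s.re * x) = a * b * Y ^ s.re * x := by ring
        _ ≤ C₂ * M ^ k₂ * cG m s.im * (C₄ * M ^ k₄ * Y ^ (1 + ε)) := hbd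
        _ ≤ C₂ * M ^ k₂ * (C₃ * M ^ k₃ * a) * (C₄ * M ^ k₄ * Y ^ (1 + ε)) := by
          refine mul_le_mul_of_nonneg_right ?_ (by positivity)
          exact mul_le_mul_of_nonneg_left hG1 (by positivity)
        _ = _ := by
          rw [pow_add, pow_add]
          ring
    exact le_of_mul_le_mul_left h6 ha0
  have h7 : Y ^ s.re * x ≤ C₁ * T ^ k₁ *
      (C₂ * C₄ * C₃ * M ^ (k₂ + k₄ + k₃) * Y ^ (1 + ε)) := by
    calc Y ^ s.re * x = 1 * (Y ^ s.re * x) := by ring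
      _ ≤ C₁ * T ^ k₁ * b * (Y ^ s.re * x) := mul_le_mul_of_nonneg_right hb (by positivity)
      _ = C₁ * T ^ k₁ * (b * Y ^ s.re * x) := by ring
      _ ≤ _ := mul_le_mul_of_nonneg_left h5 (by positivity)
  have hYk : Y ^ (1 / 2 - κ₀) ≤ Y ^ s.re := by
    refine Real.rpow_le_rpow_of_exponent_le hY1 ?_
    linarith [(abs_le.1 hs).1]
  have h8 : x ≤ C₁ * T ^ k₁ * (C₂ * C₄ * C₃ * M ^ (k₂ + k₄ + k₃)) *
      Y ^ (1 / 2 + κ₀ + ε) := by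
    have h9 : Y ^ (1 + ε) = Y ^ (1 / 2 - κ₀) * Y ^ (1 / 2 + κ₀ + ε) := by
      rw [← Real.rpow_add hY0]
      congr 1
      ring
    have h10 : Y ^ (1 / 2 - κ₀) * x ≤ Y ^ (1 / 2 - κ₀) *
        (C₁ * T ^ k₁ * (C₂ * C₄ * C₃ * M ^ (k₂ + k₄ + k₃)) * Y ^ (1 / 2 + κ₀ + ε)) := by
      calc Y ^ (1 / 2 - κ₀) * x ≤ Y ^ s.re * x := mul_le_mul_of_nonneg_right hYk hx0
        _ ≤ _ := h7
        _ = _ := by
          rw [h9]
          ring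
    exact le_of_mul_le_mul_left h10 (Real.rpow_pos_of_pos hY0 _)
  have h11 : M ^ (k₂ + k₄ + k₃) ≤
      (1 + C₁) ^ (k₂ + k₄ + k₃) * T ^ ((k₁ + 1) * (k₂ + k₄ + k₃)) := by
    calc M ^ (k₂ + k₄ + k₃) ≤ ((1 + C₁) * T ^ (k₁ + 1)) ^ (k₂ + k₄ + k₃) :=
          pow_le_pow_left₀ (by linarith) hMT _
      _ = _ := by rw [mul_pow, ← pow_mul]
  have h12 : x ≤ C₁ * (C₂ * C₄ * C₃) * (1 + C₁) ^ (k₂ + k₄ + k₃) *
      T ^ (k₁ + (k₁ + 1) * (k₂ + k₄ + k₃)) * Y ^ (1 / 2 + κ₀ + ε) := by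
    refine h8.trans (mul_le_mul_of_nonneg_right ?_ (Real.rpow_pos_of_pos hY0 _).le)
    calc C₁ * T ^ k₁ * (C₂ * C₄ * C₃ * M ^ (k₂ + k₄ + k₃))
        ≤ C₁ * T ^ k₁ * (C₂ * C₄ * C₃ *
          ((1 + C₁) ^ (k₂ + k₄ + k₃) * T ^ ((k₁ + 1) * (k₂ + k₄ + k₃)))) := by
          refine mul_le_mul_of_nonneg_left ?_ (by positivity)
          exact mul_le_mul_of_nonneg_left h11 (by positivity)
      _ = _ := by
          rw [pow_add]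
          ring
  have h13 : ((D : ℝ) * (f : ℝ) ^ 2) ^ (1 / 2 + κ₀ + ε) = (Y ^ (1 / 2 + κ₀ + ε)) ^ 2 := by
    have h14 : (D : ℝ) * (f : ℝ) ^ 2 = Y ^ (2 : ℝ) := by
      rw [hY, Real.rpow_two, mul_pow, Real.sq_sqrt (by linarith)]
      ring
    rw [h14, ← Real.rpow_mul hY0.le, ← Real.rpow_natCast, ← Real.rpow_mul hY0.le]
    congr 1
    push_cast
    ring
  rw [h13]
  calc x ^ 2 ≤ (C₁ * (C₂ * C₄ * C₃) * (1 + C₁) ^ (k₂ + k₄ + k₃) *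
      T ^ (k₁ + (k₁ + 1) * (k₂ + k₄ + k₃)) * Y ^ (1 / 2 + κ₀ + ε)) ^ 2 :=
        pow_le_pow_left₀ hx0 h12 2
    _ = _ := by
      rw [mul_pow, mul_pow, ← pow_mul T, mul_comm (k₁ + (k₁ + 1) * (k₂ + k₄ + k₃)) 2]

end Pool.Agent.H48.DF
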