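import Pool.Agent.H89.DF.TargetsB

/-!
# Dihedral `L`-functions, real quadratic fields: module CRE (Beta integral)
-/

set_option autoImplicit false

open MeasureTheory Set Filter
open scoped Real Matrix MatrixGroups

namespace Pool.Agent.H48.DF

open Pool.Agent.H31.CN Pool.Agent.H89.FM Pool.Agent.H89.FC Pool.Agent.H89.DF

/-- the substitution -/
noncomputable def phi (τ : ℝ) : ℝ := (1 + Real.exp (-(2 * τ)))⁻¹

theorem phi_pos (τ : ℝ) : 0 < phi τ := by
  unfold phi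
  positivity

theorem phi_lt (τ : ℝ) : phi τ < 1 := by
  unfold phi
  refine inv_lt_one_of_one_lt₀ ?_
  have := Real.exp_pos (-(2 * τ))
  linarith

theorem one_sub_phi (τ : ℝ) : 1 - phi τ = Real.exp (-(2 * τ)) * phi τ := by
  have h := Real.exp_pos (-(2 * τ))
  unfold phi
  field_simp
  ring

theorem phi_eq (τ : ℝ) : phi τ = Real.exp τ / (2 * Real.cosh τ) := by
  have h := Real.exp_pos (-(2 * τ))
  have h1 := Real.exp_pos τ
  have h2 := Real.cosh_pos τ
  unfold phi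
  rw [Real.cosh_eq, eq_div_iff (by positivity), inv_mul_eq_div, div_eq_iff (by positivity)]
  have h3 : Real.exp (-τ) = Real.exp τ * Real.exp (-(2 * τ)) := by
    rw [← Real.exp_add]
    congr 1
    ring
  rw [h3]
  ring

theorem log_phi (τ : ℝ) : Real.log (phi τ) = τ - Real.log (2 * Real.cosh τ) := by
  have h2 := Real.cosh_pos τ
  rw [phi_eq, Real.log_div (Real.exp_pos τ).ne' (by positivity), Real.log_exp]

theorem log_one_sub_phi (τ : ℝ) :
    Real.log (1 - phi τ) = -τ - Real.log (2 * Real.cosh τ) := by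
  rw [one_sub_phi, Real.log_mul (Real.exp_pos _).ne' (phi_pos τ).ne', Real.log_exp, log_phi]
  ring

theorem phi_deriv (τ : ℝ) : HasDerivAt phi (2 * (phi τ * (1 - phi τ))) τ := by
  have h0 : (1 + Real.exp (-(2 * τ))) ≠ 0 := by positivity
  have h1 : HasDerivAt (fun t : ℝ => 1 + Real.exp (-(2 * t)))
      (Real.exp (-(2 * τ)) * -(2 * 1)) τ :=
    ((((hasDerivAt_id τ).const_mul 2).neg).exp).const_add 1
  have h2 := h1.inv h0
  have h3 : -(Real.exp (-(2 * τ)) * -(2 * 1)) / (1 + Real.exp (-(2 * τ))) ^ 2 =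
      2 * (phi τ * (1 - phi τ)) := by
    rw [one_sub_phi]
    unfold phi
    field_simp
  rw [h3] at h2
  exact h2

theorem phi_inj : Function.Injective phi := by
  intro a b h
  unfold phi at h
  have h1 := inv_injective h
  have h2 : Real.exp (-(2 * a)) = Real.exp (-(2 * b)) := by linarith
  have h3 := Real.exp_injective h2
  linarith

theorem phi_image : phi '' univ = Ioo 0 1 := by
  ext x
  constructor
  · rintro ⟨τ, -, rfl⟩
    exact ⟨phi_pos τ, phi_lt τ⟩
  · rintro ⟨h0, h1⟩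
    have h2 : 0 < 1 / x - 1 := by
      rw [sub_pos, one_lt_div h0]
      exact h1
    refine ⟨-(Real.log (1 / x - 1) / 2), mem_univ _, ?_⟩
    unfold phi
    have h3 : -(2 * -(Real.log (1 / x - 1) / 2)) = Real.log (1 / x - 1) := by ring
    rw [h3, Real.exp_log h2]
    field_simp
    ring

/-- the Beta integral over the real line -/
theorem beta_line (w : ℂ) (ν : ℝ) :
    Complex.betaIntegral ((w - ν * Complex.I) / 2) ((w + ν * Complex.I) / 2) =
      2 ^ (1 - w) * ∫ τ : ℝ, ((Real.cosh τ : ℝ) : ℂ) ^ (-w) *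
        Complex.exp (-(((ν * τ : ℝ) : ℂ) * Complex.I)) := by
  unfold Complex.betaIntegral
  rw [intervalIntegral.integral_of_le (by norm_num), integral_Ioc_eq_integral_Ioo, ← phi_image,
    integral_image_eq_integral_abs_deriv_smul MeasurableSet.univ
      (fun τ _ => (phi_deriv τ).hasDerivWithinAt) phi_inj.injOn, setIntegral_univ,
    ← integral_const_mul]
  refine integral_congr_ae (Eventually.of_forall fun τ => ?_)
  beta_reduce
  have hp := phi_pos τ
  have hq : 0 < 1 - phi τ := sub_pos.2 (phi_lt τ)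
  have hc := Real.cosh_pos τ
  obtain ⟨lc, hlc⟩ : ∃ lc : ℝ, lc = Real.log (Real.cosh τ) := ⟨_, rfl⟩
  obtain ⟨l2, hl2⟩ : ∃ l2 : ℝ, l2 = Real.log 2 := ⟨_, rfl⟩
  have hl : Real.log (2 * Real.cosh τ) = l2 + lc := by
    rw [Real.log_mul (by norm_num) hc.ne', hlc, hl2]
  have e1 : ((phi τ : ℝ) : ℂ) = Complex.exp ((τ - (l2 + lc) : ℝ) : ℂ) := by
    rw [← hl, ← log_phi, ← Complex.ofReal_exp, Real.exp_log hp]
  have e2 : (1 - (phi τ : ℝ) : ℂ) = Complex.exp ((-τ - (l2 + lc) : ℝ) : ℂ) := by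
    rw [← hl, ← log_one_sub_phi, ← Complex.ofReal_exp, Real.exp_log hq]
    push_cast
    ring
  have f1 : ∀ z : ℂ, ((phi τ : ℝ) : ℂ) ^ z = Complex.exp (((τ - (l2 + lc) : ℝ) : ℂ) * z) := by
    intro z
    rw [Complex.cpow_def_of_ne_zero (by exact_mod_cast hp.ne'), ← Complex.ofReal_log hp.le,
      log_phi, hl]
  have f2 : ∀ z : ℂ, (1 - (phi τ : ℝ) : ℂ) ^ z =
      Complex.exp (((-τ - (l2 + lc) : ℝ) : ℂ) * z) := by
    intro z
    have h1 : (1 - (phi τ : ℝ) : ℂ) = ((1 - phi τ : ℝ) : ℂ) := by push_cast; ring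
    rw [h1, Complex.cpow_def_of_ne_zero (by exact_mod_cast hq.ne'), ← Complex.ofReal_log hq.le,
      log_one_sub_phi, hl]
  have f3 : ((Real.cosh τ : ℝ) : ℂ) ^ (-w) = Complex.exp ((lc : ℂ) * (-w)) := by
    rw [Complex.cpow_def_of_ne_zero (by exact_mod_cast hc.ne'), ← Complex.ofReal_log hc.le, hlc]
  have f4 : (2 : ℂ) ^ (1 - w) = Complex.exp ((l2 : ℂ) * (1 - w)) := by
    rw [Complex.cpow_def_of_ne_zero (by norm_num), hl2]
    congr 2
    rw [Complex.ofReal_log (by norm_num)]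
    norm_num
  have f5 : (2 : ℂ) = Complex.exp (l2 : ℂ) := by
    rw [hl2, ← Complex.ofReal_exp, Real.exp_log (by norm_num)]
    norm_num
  have habs : |2 * (phi τ * (1 - phi τ))| = 2 * (phi τ * (1 - phi τ)) :=
    abs_of_pos (by positivity)
  rw [habs, Complex.real_smul, f1, f2, f3, f4]
  have f6 : ((2 * (phi τ * (1 - phi τ)) : ℝ) : ℂ) = Complex.exp (l2 : ℂ) *
      (Complex.exp ((τ - (l2 + lc) : ℝ) : ℂ) * Complex.exp ((-τ - (l2 + lc) : ℝ) : ℂ)) := by
    rw [← e1, ← e2, ← f5]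
    push_cast
    ring
  rw [f6]
  simp only [← Complex.exp_add]
  congr 1
  push_cast
  ring

theorem pf_CRE (hTRA : T_TRA) (_hCRI : T_CRI) : T_CRE := by
  intro κ ν s hκ hs
  obtain ⟨w, hw⟩ : ∃ w : ℂ, w = s + κ := ⟨_, rfl⟩
  have hwre : 0 < w.re := by
    rw [hw, Complex.add_re, Complex.natCast_re]
    positivity
  have h1 : crr κ κ ν s = Complex.I ^ κ * ∫ τ : ℝ, ((Real.cosh τ : ℝ) : ℂ) ^ (-w) *
      Complex.exp (-(((ν * τ : ℝ) : ℂ) * Complex.I)) := by
    unfold crr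
    rw [← integral_const_mul]
    refine integral_congr_ae (Eventually.of_forall fun τ => ?_)
    beta_reduce
    have hc : ((Real.cosh τ : ℝ) : ℂ) ≠ 0 := by exact_mod_cast (Real.cosh_pos τ).ne'
    rw [(hTRA.2.2.2 κ κ).2.2 hκ τ]
    interval_cases κ
    · rw [if_pos rfl, hw]
      simp
    · rw [if_neg one_ne_zero, hw]
      have h2 : ((Real.cosh τ : ℝ) : ℂ) ^ (-(s + ((1 : ℕ) : ℂ))) =
          ((Real.cosh τ : ℝ) : ℂ) ^ (-s) / ((Real.cosh τ : ℝ) : ℂ) := by
        rw [show -(s + ((1 : ℕ) : ℂ)) = -s - 1 by push_cast; ring, Complex.cpow_sub _ _ hc,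
          Complex.cpow_one]
      rw [h2, pow_one]
      ring
  have hu : 0 < ((w - ν * Complex.I) / 2).re := by
    have : ((w - ν * Complex.I) / 2).re = w.re / 2 := by simp
    rw [this]
    linarith
  have hv : 0 < ((w + ν * Complex.I) / 2).re := by
    have : ((w + ν * Complex.I) / 2).re = w.re / 2 := by simp
    rw [this]
    linarith
  have h2 := Complex.Gamma_mul_Gamma_eq_betaIntegral hu hv
  have h3 : (w - ν * Complex.I) / 2 + (w + ν * Complex.I) / 2 = w := by ring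
  rw [h3, beta_line] at h2
  have hG : Complex.Gamma w ≠ 0 := Complex.Gamma_ne_zero_of_re_pos hwre
  have h4 : (2 : ℂ) ^ (1 - w) * (2 : ℂ) ^ (w - 1) = 1 := by
    rw [← Complex.cpow_add _ _ (by norm_num)]
    simp
  rw [h1, ← hw]
  obtain ⟨J, hJ⟩ : ∃ J : ℂ, J = ∫ τ : ℝ, ((Real.cosh τ : ℝ) : ℂ) ^ (-w) *
      Complex.exp (-(((ν * τ : ℝ) : ℂ) * Complex.I)) := ⟨_, rfl⟩
  rw [← hJ] at h2 ⊢
  rw [eq_div_iff hG]
  have h5 : Complex.I ^ κ * (2 : ℂ) ^ (w - 1) * Complex.Gamma ((w + ν * Complex.I) / 2) *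
      Complex.Gamma ((w - ν * Complex.I) / 2) = Complex.I ^ κ * (2 : ℂ) ^ (w - 1) *
      (Complex.Gamma ((w - ν * Complex.I) / 2) * Complex.Gamma ((w + ν * Complex.I) / 2)) := by
    ring
  rw [h5, h2]
  linear_combination (-(Complex.I ^ κ * J * Complex.Gamma w)) * h4

end Pool.Agent.H48.DF
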