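import Pool.Agent.H89.DF.TargetsB
import Pool.Agent.H23.FC.EZZ

/-!
# Dihedral `L`-functions, real quadratic fields: module EJC (joint continuity of the completed
Epstein zeta functions)
-/

set_option autoImplicit false

open MeasureTheory Set Filter
open scoped Real Matrix MatrixGroups Topology

namespace Pool.Agent.H48.DF

open Pool.Agent.H31.CN Pool.Agent.H89.FM Pool.Agent.H89.FC Pool.Agent.H89.DF

/-- the constant of the bound for the test function -/
noncomputable def Cph (M : ℕ) : ℝ :=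
  ((M + 7) ^ 2 + M + 13) * (((M + 2).factorial : ℝ) * Real.exp 1)

theorem Cph_pos (M : ℕ) : 0 < Cph M := by
  unfold Cph
  positivity

theorem kmi_eq (M : ℕ) (s : ℂ) (r u : ℝ) :
    Kmi M 1 s (r : ℂ) u = phm M ((u * r : ℝ) : ℂ) * ((u : ℂ) ^ s + (u : ℂ) ^ (1 - s)) / u := by
  unfold Kmi
  rw [inv_one, one_mul]
  push_cast
  ring

theorem kmi_le (M : ℕ) {s : ℂ} {r u R : ℝ} (hs : ‖s‖ ≤ R) (hr : 0 < r) (hu : 1 ≤ u) :
    ‖Kmi M 1 s (r : ℂ) u‖ ≤ 2 * Cph M * (u ^ R * Real.exp (-(u * r))) := by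
  have hu0 : 0 < u := by linarith
  have hre := (abs_le.1 ((Complex.abs_re_le_norm s).trans hs))
  rw [kmi_eq, norm_div, norm_mul, Complex.norm_real, Real.norm_eq_abs, abs_of_pos hu0]
  have h1 := Pool.Agent.H23.FC.norm_phm_le M (mul_pos hu0 hr).le
  have h2 : ‖(u : ℂ) ^ s + (u : ℂ) ^ (1 - s)‖ ≤ u * (2 * u ^ R) := by
    refine (norm_add_le _ _).trans ?_
    rw [Complex.norm_cpow_eq_rpow_re_of_pos hu0, Complex.norm_cpow_eq_rpow_re_of_pos hu0]
    have h3 : u ^ s.re ≤ u * u ^ R := by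
      have h4 : u ^ s.re ≤ u ^ R := Real.rpow_le_rpow_of_exponent_le hu (by linarith [hre.2])
      have h5 : u ^ R ≤ u * u ^ R := le_mul_of_one_le_left (by positivity) hu
      exact h4.trans h5
    have h6 : u ^ (1 - s).re ≤ u * u ^ R := by
      have h7 : u * u ^ R = u ^ (1 + R) := by
        rw [Real.rpow_add hu0, Real.rpow_one]
      rw [h7]
      refine Real.rpow_le_rpow_of_exponent_le hu ?_
      rw [Complex.sub_re, Complex.one_re]
      linarith [hre.1]
    linarith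
  rw [div_le_iff₀ hu0]
  calc ‖phm M ((u * r : ℝ) : ℂ)‖ * ‖(u : ℂ) ^ s + (u : ℂ) ^ (1 - s)‖
      ≤ (Cph M * Real.exp (-(u * r))) * (u * (2 * u ^ R)) :=
        mul_le_mul h1 h2 (norm_nonneg _) (by have := Cph_pos M; positivity)
    _ = _ := by ring

theorem int_bound (R b : ℝ) (hR : 0 ≤ R) (hb : 0 < b) :
    IntegrableOn (fun u : ℝ => u ^ R * Real.exp (-(u * b))) (Ioi 1) := by
  have h1 := integrableOn_rpow_mul_exp_neg_mul_rpow (p := 1) (s := R) (b := b) (by linarith)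
    zero_lt_one hb
  refine (h1.mono_set (Ioi_subset_Ioi zero_le_one)).congr_fun (fun u hu => ?_) measurableSet_Ioi
  beta_reduce
  rw [Real.rpow_one]
  congr 2
  ring

theorem phm_cont (M : ℕ) : Continuous (phm M) := by
  unfold phm
  fun_prop

theorem kmi_meas (M : ℕ) (s : ℂ) (r : ℝ) :
    AEStronglyMeasurable (fun u : ℝ => Kmi M 1 s (r : ℂ) u) (volume.restrict (Ioi 1)) := by
  refine ContinuousOn.aestronglyMeasurable ?_ measurableSet_Ioi
  have h1 : ∀ z : ℂ, ContinuousOn (fun u : ℝ => (u : ℂ) ^ z) (Ioi 1) := by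
    intro z u hu
    have hu' : (0 : ℝ) < u := lt_trans zero_lt_one hu
    exact (Complex.continuous_ofReal.continuousAt.cpow continuousAt_const
      (Or.inl (by simpa using hu'))).continuousWithinAt
  have h2 : (fun u : ℝ => Kmi M 1 s (r : ℂ) u) = fun u : ℝ =>
      phm M ((u * r : ℝ) : ℂ) * ((u : ℂ) ^ s + (u : ℂ) ^ (1 - s)) / u :=
    funext fun u => kmi_eq M s r u
  rw [h2]
  refine ContinuousOn.div ?_ Complex.continuous_ofReal.continuousOn fun u hu => ?_
  · refine ContinuousOn.mul ?_ ((h1 s).add (h1 (1 - s)))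
    exact ((phm_cont M).comp (Complex.continuous_ofReal.comp
      (continuous_id.mul continuous_const))).continuousOn
  · have hu' : (0 : ℝ) < u := lt_trans zero_lt_one hu
    exact_mod_cast hu'.ne'

/-- the kernel is jointly continuous -/
theorem kmc_cont (M : ℕ) {s₀ : ℂ} {r₀ : ℝ} (hr₀ : 0 < r₀) :
    ContinuousAt (fun p : ℂ × ℝ => Kmc M 1 p.1 (p.2 : ℂ)) (s₀, r₀) := by
  unfold Kmc
  refine continuousAt_of_dominated
    (bound := fun u => 2 * Cph M * (u ^ (‖s₀‖ + 1) * Real.exp (-(u * (r₀ / 2))))) ?_ ?_ ?_ ?_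
  · exact Eventually.of_forall fun p => kmi_meas M p.1 p.2
  · have h1 : ∀ᶠ p : ℂ × ℝ in 𝓝 (s₀, r₀), ‖p.1‖ < ‖s₀‖ + 1 :=
      (continuous_fst.norm.continuousAt).eventually_lt continuousAt_const (by simp)
    have h2 : ∀ᶠ p : ℂ × ℝ in 𝓝 (s₀, r₀), r₀ / 2 < p.2 :=
      continuousAt_const.eventually_lt (continuous_snd.continuousAt) (by simp; linarith)
    filter_upwards [h1, h2] with p hp1 hp2
    refine (ae_restrict_iff' measurableSet_Ioi).2 (Eventually.of_forall fun u hu => ?_)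
    have hu' : (1 : ℝ) < u := hu
    refine (kmi_le M hp1.le (by linarith) hu'.le).trans ?_
    have h3 := Cph_pos M
    refine mul_le_mul_of_nonneg_left ?_ (by positivity)
    refine mul_le_mul_of_nonneg_left ?_ (by positivity)
    exact Real.exp_le_exp.2 (by nlinarith)
  · exact (int_bound _ _ (by positivity) (by linarith)).const_mul _
  · refine (ae_restrict_iff' measurableSet_Ioi).2 (Eventually.of_forall fun u hu => ?_)
    have hu' : (0 : ℝ) < u := lt_trans zero_lt_one hu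
    have hun : (u : ℂ) ≠ 0 := by exact_mod_cast hu'.ne'
    have h2 : (fun p : ℂ × ℝ => Kmi M 1 p.1 (p.2 : ℂ) u) = fun p : ℂ × ℝ =>
        phm M ((u * p.2 : ℝ) : ℂ) * ((u : ℂ) ^ p.1 + (u : ℂ) ^ (1 - p.1)) / u :=
      funext fun p => kmi_eq M p.1 p.2 u
    rw [h2]
    refine ContinuousAt.div ?_ continuousAt_const hun
    refine ContinuousAt.mul ?_ (ContinuousAt.add ?_ ?_)
    · exact ((phm_cont M).comp (Complex.continuous_ofReal.comp
        (continuous_const.mul continuous_snd))).continuousAt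
    · exact (continuousAt_const_cpow hun).comp continuous_fst.continuousAt
    · exact (continuousAt_const_cpow hun).comp (continuous_const.sub continuous_fst).continuousAt

/-- a bound for the kernel -/
theorem kmc_le (M : ℕ) {R b : ℝ} (hR : 0 ≤ R) (hb : 0 < b) : ∃ C : ℝ, 0 ≤ C ∧ ∀ (s : ℂ) (r : ℝ),
    ‖s‖ ≤ R → b ≤ r → ‖Kmc M 1 s (r : ℂ)‖ ≤ C * Real.exp (-(r / 2)) := by
  have hC := Cph_pos M
  refine ⟨∫ u in Ioi (1 : ℝ), 2 * Cph M * (u ^ R * Real.exp (-(u * (b / 2)))), ?_, ?_⟩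
  · refine setIntegral_nonneg measurableSet_Ioi fun u hu => ?_
    have hu' : (0 : ℝ) < u := lt_trans zero_lt_one hu
    positivity
  · intro s r hs hr
    unfold Kmc
    rw [← integral_mul_const]
    refine norm_integral_le_of_norm_le
      (((int_bound R (b / 2) hR (by linarith)).const_mul _).mul_const _) ?_
    refine (ae_restrict_iff' measurableSet_Ioi).2 (Eventually.of_forall fun u hu => ?_)
    have hu' : (1 : ℝ) < u := hu
    refine (kmi_le M hs (by linarith) hu'.le).trans ?_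
    rw [mul_assoc (2 * Cph M), mul_assoc (u ^ R), ← Real.exp_add]
    refine mul_le_mul_of_nonneg_left ?_ (by positivity)
    refine mul_le_mul_of_nonneg_left ?_ (by positivity)
    refine Real.exp_le_exp.2 ?_
    nlinarith

/-- the metric is locally bounded below -/
theorem qz_ge {x y A y₀ y₁ : ℝ} (hx : |x| ≤ A) (hy₀ : 0 < y₀) (h0 : y₀ ≤ y) (h1 : y ≤ y₁)
    (v : ℤ × ℤ) :
    ((v.1 : ℝ) ^ 2 + (v.2 : ℝ) ^ 2) / (2 * y₁ * (2 + (2 * A ^ 2 + 1) / y₀ ^ 2)) ≤ qz x y v := by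
  have hy : 0 < y := by linarith
  have hy1 : 0 < y₁ := by linarith
  have hA : 0 ≤ A := (abs_nonneg x).trans hx
  obtain ⟨a, ha⟩ : ∃ a : ℝ, a = v.1 := ⟨_, rfl⟩
  obtain ⟨b, hb⟩ : ∃ b : ℝ, b = v.2 := ⟨_, rfl⟩
  obtain ⟨B, hB⟩ : ∃ B : ℝ, B = (2 * A ^ 2 + 1) / y₀ ^ 2 := ⟨_, rfl⟩
  have hB0 : 0 < B := by rw [hB]; positivity
  unfold qz
  rw [← ha, ← hb, ← hB]
  have h2 : x ^ 2 ≤ A ^ 2 := sq_le_sq' (by linarith [(abs_le.1 hx).1]) (abs_le.1 hx).2
  have h3 : (2 * A ^ 2 + 1) * b ^ 2 ≤ B * (b * y) ^ 2 := by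
    have h4 : (2 * A ^ 2 + 1) = B * y₀ ^ 2 := by
      rw [hB]
      field_simp
    rw [h4]
    have h5 : y₀ ^ 2 ≤ y ^ 2 := pow_le_pow_left₀ hy₀.le h0 2
    calc B * y₀ ^ 2 * b ^ 2 ≤ B * y ^ 2 * b ^ 2 :=
          mul_le_mul_of_nonneg_right (mul_le_mul_of_nonneg_left h5 hB0.le) (sq_nonneg b)
      _ = B * (b * y) ^ 2 := by ring
  have h6 : a ^ 2 + b ^ 2 ≤ (2 + B) * ((a + b * x) ^ 2 + (b * y) ^ 2) := by
    have h7 : a ^ 2 ≤ 2 * (a + b * x) ^ 2 + 2 * (b * x) ^ 2 := by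
      nlinarith [sq_nonneg (a + 2 * (b * x))]
    have h8 : (b * x) ^ 2 ≤ A ^ 2 * b ^ 2 := by
      rw [mul_pow, mul_comm]
      exact mul_le_mul_of_nonneg_right h2 (sq_nonneg b)
    have h9 : 0 ≤ B * (a + b * x) ^ 2 := by positivity
    have h10 : 0 ≤ 2 * (b * y) ^ 2 := by positivity
    nlinarith
  rw [div_le_div_iff₀ (by positivity) (by positivity)]
  have h11 : 0 ≤ (a + b * x) ^ 2 + (b * y) ^ 2 := by positivity
  calc (a ^ 2 + b ^ 2) * (2 * y)
      ≤ ((2 + B) * ((a + b * x) ^ 2 + (b * y) ^ 2)) * (2 * y₁) :=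
        mul_le_mul h6 (by linarith) (by linarith) (by positivity)
    _ = _ := by ring

theorem one_le_sq {v : ℤ × ℤ} (hv : v ≠ 0) : 1 ≤ (v.1 : ℝ) ^ 2 + (v.2 : ℝ) ^ 2 := by
  have h1 : 1 ≤ v.1 ^ 2 + v.2 ^ 2 := by
    have h2 : v.1 ≠ 0 ∨ v.2 ≠ 0 := by
      by_contra h
      push Not at h
      exact hv (Prod.ext h.1 h.2)
    rcases h2 with h | h
    · have := Int.one_le_abs h
      nlinarith [sq_abs v.1, sq_nonneg v.2]
    · have := Int.one_le_abs h
      nlinarith [sq_abs v.2, sq_nonneg v.1]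
  exact_mod_cast h1

theorem sum_exp {c : ℝ} (hc : 0 < c) :
    Summable fun v : ℤ × ℤ => Real.exp (-(c * ((v.1 : ℝ) ^ 2 + (v.2 : ℝ) ^ 2))) := by
  have h1 : Summable fun k : ℤ => Real.exp (-(c * |(k : ℝ)|)) := by
    have h2 : Summable fun n : ℕ => Real.exp (-(c * (n : ℝ))) := by
      have h3 : Summable fun n : ℕ => (Real.exp (-c)) ^ n :=
        summable_geometric_of_lt_one (Real.exp_pos _).le
          (by rw [← Real.exp_zero]; exact Real.exp_lt_exp.2 (by linarith))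
      refine h3.congr fun n => ?_
      rw [← Real.exp_nat_mul]
      congr 1
      ring
    refine Summable.of_nat_of_neg ?_ ?_
    · refine h2.congr fun n => ?_
      simp
    · refine h2.congr fun n => ?_
      simp
  have h4 := Summable.mul_of_nonneg h1 h1 (fun k => (Real.exp_pos _).le)
    (fun k => (Real.exp_pos _).le)
  refine Summable.of_nonneg_of_le (fun v => (Real.exp_pos _).le) (fun v => ?_) h4
  rw [← Real.exp_add]
  refine Real.exp_le_exp.2 ?_
  have h5 : ∀ k : ℤ, |(k : ℝ)| ≤ (k : ℝ) ^ 2 := by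
    intro k
    have h6 : |k| ≤ k ^ 2 := by
      rcases eq_or_ne k 0 with rfl | hk
      · simp
      · have h7 : 1 ≤ |k| := Int.one_le_abs hk
        rw [← sq_abs]
        nlinarith
    exact_mod_cast h6
  nlinarith [h5 v.1, h5 v.2]

theorem an_den {x y : ℝ} (hy : 0 < y) {v : ℤ × ℤ} (hv : v ≠ 0) :
    ((v.1 : ℂ) + v.2 * ((x : ℂ) - y * Complex.I)) ≠ 0 ∧
    ((v.1 : ℂ) + v.2 * ((x : ℂ) + y * Complex.I)) ≠ 0 := by
  have key : ∀ t : ℝ, t ≠ 0 → ((v.1 : ℂ) + v.2 * ((x : ℂ) + t * Complex.I)) ≠ 0 := by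
    intro t ht h
    have h1 := congrArg Complex.im h
    have h2 := congrArg Complex.re h
    simp at h1 h2
    rcases h1 with h3 | h3
    · rw [h3] at h2
      simp at h2
      exact hv (Prod.ext h2 h3)
    · exact ht h3
  refine ⟨?_, key y hy.ne'⟩
  have h1 := key (-y) (neg_ne_zero.2 hy.ne')
  intro h2
  apply h1
  rw [← h2]
  push_cast
  ring


theorem an_norm {x y : ℝ} (hy : 0 < y) {v : ℤ × ℤ} (hv : v ≠ 0) :
    ‖an (x : ℂ) (y : ℂ) v‖ = 1 := by
  obtain ⟨h1, h2⟩ := an_den (x := x) hy hv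
  unfold Pool.Agent.H89.FC.an
  have h3 : ((v.1 : ℂ) + v.2 * ((x : ℂ) + y * Complex.I)) =
      (starRingEnd ℂ) ((v.1 : ℂ) + v.2 * ((x : ℂ) - y * Complex.I)) := by
    simp
  rw [norm_div, h3, Complex.norm_conj, div_self (norm_ne_zero_iff.2 h1)]

theorem an_cont {m : ℤ} {v : ℤ × ℤ} (hv : v ≠ 0) :
    ContinuousOn (fun p : ℂ × ℝ × ℝ => an (p.2.1 : ℂ) (p.2.2 : ℂ) v ^ m) {p | 0 < p.2.2} := by
  intro p hp
  have hp' : 0 < p.2.2 := hp
  obtain ⟨h1, h2⟩ := an_den (x := p.2.1) hp' hv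
  have hx : Continuous fun p : ℂ × ℝ × ℝ => (p.2.1 : ℂ) :=
    Complex.continuous_ofReal.comp (continuous_fst.comp continuous_snd)
  have hy : Continuous fun p : ℂ × ℝ × ℝ => (p.2.2 : ℂ) :=
    Complex.continuous_ofReal.comp (continuous_snd.comp continuous_snd)
  refine ContinuousAt.continuousWithinAt ?_
  refine ContinuousAt.zpow₀ ?_ m (Or.inl ?_)
  · unfold Pool.Agent.H89.FC.an
    refine ContinuousAt.div ?_ ?_ h1
    · exact (continuous_const.add (continuous_const.mul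
        (hx.add (hy.mul continuous_const)))).continuousAt
    · exact (continuous_const.add (continuous_const.mul
        (hx.sub (hy.mul continuous_const)))).continuousAt
  · unfold Pool.Agent.H89.FC.an
    exact div_ne_zero h2 h1

theorem qz_cont {n : ℕ} {v : ℤ × ℤ} :
    ContinuousOn (fun p : ℂ × ℝ × ℝ => qz p.2.1 p.2.2 v / n) {p | 0 < p.2.2} := by
  intro p hp
  have hp' : 0 < p.2.2 := hp
  have hx : Continuous fun p : ℂ × ℝ × ℝ => p.2.1 := continuous_fst.comp continuous_snd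
  have hy : Continuous fun p : ℂ × ℝ × ℝ => p.2.2 := continuous_snd.comp continuous_snd
  refine ContinuousAt.continuousWithinAt ?_
  refine ContinuousAt.div_const ?_ _
  unfold qz
  refine ContinuousAt.div ?_ ?_ (by positivity)
  · exact (((continuous_const.add (continuous_const.mul hx)).pow 2).add
      ((continuous_const.mul hy).pow 2)).continuousAt
  · exact (continuous_const.mul hy).continuousAt

theorem qz_pos {x y : ℝ} (hy : 0 < y) {v : ℤ × ℤ} (hv : v ≠ 0) : 0 < qz x y v := by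
  have h1 := qz_ge (le_refl |x|) hy le_rfl le_rfl v
  refine lt_of_lt_of_le ?_ h1
  have h2 : 1 ≤ (v.1 : ℝ) ^ 2 + (v.2 : ℝ) ^ 2 := one_le_sq hv
  positivity

theorem pf_EJC : T_EJC := by
  intro m n L hn _
  have hn0 : (0 : ℝ) < n := by exact_mod_cast hn
  rintro ⟨s₀, x₀, y₀⟩ hp
  have hy₀ : 0 < y₀ := hp
  obtain ⟨A, hA⟩ : ∃ A : ℝ, A = |x₀| + 1 := ⟨_, rfl⟩
  obtain ⟨R, hR⟩ : ∃ R : ℝ, R = ‖s₀‖ + 1 := ⟨_, rfl⟩
  have hA0 : 0 ≤ A := by rw [hA]; positivity
  have hR0 : 0 ≤ R := by rw [hR]; positivity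
  obtain ⟨V, hV⟩ : ∃ V : Set (ℂ × ℝ × ℝ), V = {p | ‖p.1‖ < R} ∩ ({p | |p.2.1| < A} ∩
      ({p | y₀ / 2 < p.2.2} ∩ {p | p.2.2 < y₀ + 1})) := ⟨_, rfl⟩
  have hVo : IsOpen V := by
    rw [hV]
    refine (isOpen_lt (by fun_prop) continuous_const).inter
      ((isOpen_lt (by fun_prop) continuous_const).inter
      ((isOpen_lt continuous_const (by fun_prop)).inter
      (isOpen_lt (by fun_prop) continuous_const)))
  have hpV : (s₀, x₀, y₀) ∈ V := by
    rw [hV]
    refine ⟨?_, ?_, ?_, ?_⟩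
    · change ‖s₀‖ < R
      linarith
    · change |x₀| < A
      linarith
    · change y₀ / 2 < y₀
      linarith
    · change y₀ < y₀ + 1
      linarith
  obtain ⟨D, hD⟩ : ∃ D : ℝ, D = 2 * (y₀ + 1) * (2 + (2 * A ^ 2 + 1) / (y₀ / 2) ^ 2) := ⟨_, rfl⟩
  have hD0 : 0 < D := by rw [hD]; positivity
  obtain ⟨C, hC0, hC⟩ := kmc_le m.natAbs (R := R) (b := 1 / (D * n)) hR0 (by positivity)
  have hmem : ∀ p ∈ V, ‖p.1‖ < R ∧ |p.2.1| < A ∧ y₀ / 2 < p.2.2 ∧ p.2.2 < y₀ + 1 := by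
    intro p hp
    rw [hV] at hp
    exact ⟨hp.1, hp.2.1, hp.2.2.1, hp.2.2.2⟩
  have hsub : V ⊆ {p | 0 < p.2.2} := by
    intro p hp
    have h1 := (hmem p hp).2.2.1
    change 0 < p.2.2
    linarith
  have hq : ∀ p ∈ V, ∀ v : ℤ × ℤ, ((v.1 : ℝ) ^ 2 + (v.2 : ℝ) ^ 2) / (D * n) ≤
      qz p.2.1 p.2.2 v / n := by
    intro p hp v
    obtain ⟨h1, h2, h3, h4⟩ := hmem p hp
    have h5 := qz_ge h2.le (by linarith : 0 < y₀ / 2) h3.le h4.le v
    rw [← hD] at h5
    rw [← div_div]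
    exact div_le_div_of_nonneg_right h5 hn0.le
  have hsum := (sum_exp (c := 1 / (2 * (D * n))) (by positivity)).mul_left C
  have main : ContinuousOn (fun p : ℂ × ℝ × ℝ => Em m p.1 n L p.2.1 p.2.2) V := by
    unfold Em
    refine continuousOn_tsum ?_ hsum ?_
    · intro v
      by_cases h : v ∈ L ∧ v ≠ 0
      · simp only [if_pos h]
        refine ContinuousOn.mul ((an_cont h.2).mono hsub) ?_
        intro p hp
        have hpp : 0 < p.2.2 := hsub hp
        have h1 := kmc_cont m.natAbs (s₀ := p.1) (div_pos (qz_pos (x := p.2.1) hpp h.2) hn0)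
        have h2 : ContinuousWithinAt (fun p : ℂ × ℝ × ℝ => (p.1, qz p.2.1 p.2.2 v / n)) V p :=
          ContinuousWithinAt.prodMk continuous_fst.continuousWithinAt
            ((qz_cont.mono hsub) p hp)
        exact ContinuousAt.comp_continuousWithinAt (f := fun p : ℂ × ℝ × ℝ =>
          (p.1, qz p.2.1 p.2.2 v / n)) h1 h2
      · simp only [if_neg h]
        exact continuousOn_const
    · intro v p hp
      by_cases h : v ∈ L ∧ v ≠ 0
      · have hpp : 0 < p.2.2 := hsub hp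
        have h3 := hq p hp v
        have h4 := one_le_sq h.2
        have h5 : 1 / (D * n) ≤ qz p.2.1 p.2.2 v / n :=
          (div_le_div_of_nonneg_right h4 (by positivity)).trans h3
        rw [if_pos h, norm_mul, norm_zpow, an_norm hpp h.2, one_zpow, one_mul]
        refine (hC _ _ (hmem p hp).1.le h5).trans
          (mul_le_mul_of_nonneg_left (Real.exp_le_exp.2 ?_) hC0)
        have h6 : 1 / (2 * (D * n)) * ((v.1 : ℝ) ^ 2 + (v.2 : ℝ) ^ 2) =
            ((v.1 : ℝ) ^ 2 + (v.2 : ℝ) ^ 2) / (D * n) / 2 := by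
          field_simp
        rw [h6]
        linarith
      · rw [if_neg h, norm_zero]
        positivity
  exact (main.continuousAt (hVo.mem_nhds hpV)).continuousWithinAt

end Pool.Agent.H48.DF
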