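import Pool.Agent.H61.DF.Targets
import Pool.Agent.H75.FM.PBD

/-!
# MP_52e316_nt, board `dfx_modules`, row NPB: the bound for the `L`-function by the partial sums
-/

set_option autoImplicit false

open MeasureTheory Set Filter NumberField
open scoped Real nonZeroDivisors

namespace Pool.Agent.H48.DF

open Pool.Agent.H31.CN Pool.Agent.H89.FM Pool.Agent.H61.FM Pool.Agent.H89.FC
open Pool.Agent.H89.DF Pool.Agent.H61.DF
open Pool.Agent.H75.FM (rpow_bd rpow_div_bd int_h)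

theorem nb_cG_pos (m : ℕ) (t : ℝ) : 0 < cG m t := by
  unfold cG
  have h1 : 0 < Real.sqrt (((m : ℝ) + 1) ^ 2 + t ^ 2) := Real.sqrt_pos.2 (by positivity)
  have h2 : (0 : ℝ) < m.factorial := by exact_mod_cast m.factorial_pos
  positivity

theorem nb_tum_norm (m : ℕ) (t : ℝ) : ‖tum m t‖ = 1 := Complex.norm_exp_ofReal_mul_I _

theorem nb_tum_re (m : ℕ) (t : ℝ) : 0 < (tum m t).re := by
  unfold tum
  rw [Complex.exp_ofReal_mul_I_re]
  exact Real.cos_arctan_pos _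

/-- enlarging the length -/
theorem nb_len {T U c r A : ℝ} (k : ℕ) (hT : 1 ≤ T) (hTU : T ≤ U) (hc : 0 ≤ c) (hr : 0 ≤ r)
    (hA : 0 ≤ A) :
    T ^ k * A * Real.exp (-(c * r / T)) ≤ U ^ k * A * Real.exp (-(c * r / U)) := by
  have hT0 : 0 < T := by linarith
  have hU0 : 0 < U := by linarith
  refine mul_le_mul (mul_le_mul_of_nonneg_right (pow_le_pow_left₀ hT0.le hTU k) hA) ?_
    (Real.exp_pos _).le (by positivity)
  refine Real.exp_le_exp.2 (neg_le_neg ?_)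
  exact div_le_div_of_nonneg_left (by positivity) hT0 hTU

theorem pf_PBDr (hLFK : T_LFKr) (hKRB : T_KRBr) (hCRL : T_CRL) (hABS : T_ABSr)
    (hGML : T_GMLc) (hSPT : T_SPTr) : T_PBDr := by
  obtain ⟨C₀, k₀, hC₀, hCr⟩ := hCRL
  obtain ⟨C₁, k₁, c, hC₁, hc, hK⟩ := hKRB
  obtain ⟨C₂, k₂, hC₂, hG⟩ := hGML
  obtain ⟨C₃, hC₃, hS⟩ := hSPT
  refine ⟨C₀ * (2 * C₁ * C₂ * (1 + C₀) ^ (k₁ + k₂)), k₀ + (k₀ + 1) * (k₁ + k₂), k₀ + 1,
    c / (1 + C₀), by positivity, by positivity, ?_⟩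
  intro K _ _ σ σ' D f kp ν ψ F hD hR hF s κ hs hκ
  obtain ⟨hSm, hSb⟩ := hS K σ σ' D f kp ν ψ hD hR
  have hκ0 : 0 ≤ κ := (abs_nonneg _).trans hs
  have hs8 : |s.re - 1 / 2| ≤ 1 / 8 := hs.trans hκ
  obtain ⟨hs1, hs2⟩ := abs_le.1 hs
  obtain ⟨hs3, hs4⟩ := abs_le.1 hs8
  obtain ⟨W, hW⟩ : ∃ W : ℝ, W = 1 + |s.im| + |ν| := ⟨_, rfl⟩
  rw [← hW]
  have hW1 : 1 ≤ W := by
    rw [hW]
    have h1 := abs_nonneg s.im
    have h2 := abs_nonneg ν
    linarith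
  obtain ⟨M, hM1, hM2⟩ := hCr kp ν s hs8
  rw [← hW] at hM1 hM2
  obtain ⟨T₀, hT₀⟩ : ∃ T₀ : ℝ, T₀ = 1 + |s.im| + (M : ℝ) := ⟨_, rfl⟩
  have hT₀1 : 1 ≤ T₀ := by
    rw [hT₀]
    have h1 := abs_nonneg s.im
    have h2 : (0 : ℝ) ≤ M := M.cast_nonneg
    linarith
  obtain ⟨T, hT⟩ : ∃ T : ℝ, T = (1 + C₀) * W ^ (k₀ + 1) := ⟨_, rfl⟩
  have hTT : T₀ ≤ T := by
    have h1 : W ≤ W ^ (k₀ + 1) := le_self_pow₀ hW1 (Nat.succ_ne_zero k₀)
    have h2 : W ^ k₀ ≤ W ^ (k₀ + 1) := pow_le_pow_right₀ hW1 (Nat.le_succ k₀)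
    have h3 : C₀ * W ^ k₀ ≤ C₀ * W ^ (k₀ + 1) := mul_le_mul_of_nonneg_left h2 hC₀.le
    have h4 : 1 + |s.im| ≤ W := by
      rw [hW]
      linarith [abs_nonneg ν]
    rw [hT₀, hT]
    linarith
  have hT1 : 1 ≤ T := hT₀1.trans hTT
  have hT0 : 0 < T := by linarith
  have hD1 : (1 : ℝ) ≤ D := by exact_mod_cast hD.pos
  have hD0 : (0 : ℝ) < D := by linarith
  have hf1 : (1 : ℝ) ≤ f := by exact_mod_cast hR.pos
  have hf0 : (0 : ℝ) < f := by linarith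
  obtain ⟨B, hB⟩ : ∃ B : ℝ, B = (D : ℝ) * (f : ℝ) ^ 2 := ⟨_, rfl⟩
  rw [← hB]
  have hf2 : (1 : ℝ) ≤ (f : ℝ) ^ 2 := one_le_pow₀ hf1
  have hB1 : 1 ≤ B := by
    rw [hB]
    nlinarith
  have hB0 : 0 < B := by linarith
  obtain ⟨q, hq⟩ : ∃ q : ℝ, q = (f : ℝ) * Real.sqrt D := ⟨_, rfl⟩
  rw [← hq]
  have hqB : q = Real.sqrt B := by
    rw [hq, hB, Real.sqrt_mul hD0.le, Real.sqrt_sq hf0.le, mul_comm]
  have hq1 : 1 ≤ q := by
    rw [hqB, Real.one_le_sqrt]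
    exact hB1
  have hq0 : 0 < q := by linarith
  have hqT : 0 < q * T := by positivity
  have hlen : ∀ x : ℝ, c / (1 + C₀) * x / (q * W ^ (k₀ + 1)) = c * x / (q * T) := by
    intro x
    rw [hT]
    have h1 : (1 + C₀) ≠ 0 := by positivity
    have h2 : W ^ (k₀ + 1) ≠ 0 := by positivity
    field_simp
  simp only [hlen]
  obtain ⟨E₀, hE₀⟩ : ∃ E₀ : ℝ, E₀ = cG M s.im := ⟨_, rfl⟩
  have hE₀p : 0 < E₀ := by rw [hE₀]; exact nb_cG_pos _ _
  obtain ⟨hcont, hder0⟩ := hK kp (M : ℤ) ν s hs8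
  rw [Int.natAbs_natCast] at hcont hder0
  rw [Int.cast_natCast, Nat.abs_cast, ← hT₀, ← hE₀] at hder0
  obtain ⟨τ, hτ⟩ : ∃ τ : ℂ, τ = tum M s.im := ⟨_, rfl⟩
  rw [← hτ] at hcont hder0
  obtain ⟨Kf, hKf⟩ : ∃ Kf : ℝ → ℂ, Kf = Krr kp (M : ℤ) ν τ s := ⟨_, rfl⟩
  rw [← hKf] at hcont hder0
  have hder : ∀ r : ℝ, 0 < r → DifferentiableAt ℝ Kf r ∧
      ‖Kf r‖ ≤ C₁ * T ^ k₁ * E₀ * (r ^ (-s.re) + r ^ (s.re - 1)) *
        Real.exp (-(c * r / T)) ∧
      ‖deriv Kf r‖ ≤ C₁ * T ^ k₁ * E₀ * (r ^ (-s.re - 1) + r ^ (s.re - 2)) *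
        Real.exp (-(c * r / T)) := by
    intro r hr
    obtain ⟨ha, hb, hc'⟩ := hder0 r hr
    refine ⟨ha, hb.trans ?_, hc'.trans ?_⟩
    · have h1 := nb_len (A := C₁ * E₀ * (r ^ (-s.re) + r ^ (s.re - 1))) k₁ hT₀1 hTT hc.le hr.le
        (by positivity)
      calc _ = T₀ ^ k₁ * (C₁ * E₀ * (r ^ (-s.re) + r ^ (s.re - 1))) *
            Real.exp (-(c * r / T₀)) := by ring
        _ ≤ _ := h1
        _ = _ := by ring
    · have h1 := nb_len (A := C₁ * E₀ * (r ^ (-s.re - 1) + r ^ (s.re - 2))) k₁ hT₀1 hTT hc.le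
        hr.le (by positivity)
      calc _ = T₀ ^ k₁ * (C₁ * E₀ * (r ^ (-s.re - 1) + r ^ (s.re - 2))) *
            Real.exp (-(c * r / T₀)) := by ring
        _ ≤ _ := h1
        _ = _ := by ring
  obtain ⟨c₁, hc₁⟩ : ∃ c₁ : ℝ, c₁ = c / (q * T) := ⟨_, rfl⟩
  have hc₁p : 0 < c₁ := by rw [hc₁]; positivity
  have hI : IntegrableOn (fun x : ℝ => ‖Sc ψ x‖ * x ^ (-(3 / 2) + κ) *
      Real.exp (-(c * x / (q * T)))) (Ioi 1) := by
    have h := int_h (Sc ψ) hSm C₃ c₁ (-(3 / 2) + κ) hC₃ hc₁p (by linarith) hSb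
    have h1 : ∀ x : ℝ, c₁ * x = c * x / (q * T) := by
      intro x
      rw [hc₁]
      ring
    simp only [h1] at h
    exact h
  refine ⟨hI, ?_⟩
  obtain ⟨I, hIdef⟩ : ∃ I : ℝ, I = ∫ x in Ioi (1 : ℝ), ‖Sc ψ x‖ * x ^ (-(3 / 2) + κ) *
      Real.exp (-(c * x / (q * T))) := ⟨_, rfl⟩
  rw [← hIdef]
  have hLF := hLFK K σ σ' D f kp ν ψ F hD hR hF (M : ℤ) τ s (by rw [hτ]; exact nb_tum_norm _ _)
    (by rw [hτ]; exact nb_tum_re _ _) (by linarith) (by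
    rintro rfl
    simp at hs4
    linarith)
  rw [Int.natAbs_natCast, ← hq, ← hKf] at hLF
  obtain ⟨g, hg⟩ : ∃ g : ℝ → ℂ, g = fun x => Kf (x / q) := ⟨_, rfl⟩
  have hgd : ∀ x : ℝ, 0 < x → HasDerivAt g ((1 / q : ℝ) • deriv Kf (x / q)) x := by
    intro x hx
    have h1 := ((hder (x / q) (by positivity)).1).hasDerivAt
    have h2 : HasDerivAt (fun x : ℝ => x / q) (1 / q) x := (hasDerivAt_id x).div_const q
    rw [hg]
    exact HasDerivAt.scomp x h1 h2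
  have hexp : ∀ x : ℝ, Real.exp (-(c * (x / q) / T)) = Real.exp (-(c₁ * x)) := by
    intro x
    congr 1
    rw [hc₁]
    field_simp
  have hM : ∀ x : ℝ, 1 ≤ x → DifferentiableAt ℝ g x ∧
      ‖g x‖ ≤ (C₁ * T ^ k₁ * E₀ * (q ^ 2 + q ^ 2)) * Real.exp (-(c₁ * x)) ∧
      ‖deriv g x‖ ≤ (C₁ * T ^ k₁ * E₀ * (q ^ 2 + q ^ 2)) * Real.exp (-(c₁ * x)) := by
    intro x hx
    have hx0 : 0 < x := by linarith
    obtain ⟨-, hb1, hb2⟩ := hder (x / q) (by positivity)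
    rw [hexp x] at hb1 hb2
    refine ⟨(hgd x hx0).differentiableAt, ?_, ?_⟩
    · rw [hg]
      refine hb1.trans (mul_le_mul_of_nonneg_right ?_ (Real.exp_pos _).le)
      refine mul_le_mul_of_nonneg_left (add_le_add ?_ ?_) (by positivity)
      · exact rpow_bd x q _ hx hq1 (by linarith) (by linarith)
      · exact rpow_bd x q _ hx hq1 (by linarith) (by linarith)
    · rw [(hgd x hx0).deriv, norm_smul, Real.norm_of_nonneg (by positivity)]
      have h1 : 1 / q * ‖deriv Kf (x / q)‖ ≤ ‖deriv Kf (x / q)‖ :=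
        mul_le_of_le_one_left (norm_nonneg _) ((div_le_one hq0).2 hq1)
      refine h1.trans (hb2.trans (mul_le_mul_of_nonneg_right ?_ (Real.exp_pos _).le))
      refine mul_le_mul_of_nonneg_left (add_le_add ?_ ?_) (by positivity)
      · exact rpow_bd x q _ hx hq1 (by linarith) (by linarith)
      · exact rpow_bd x q _ hx hq1 (by linarith) (by linarith)
  have hgcont : ContinuousOn (deriv g) (Ici 1) := by
    have h1 : ContinuousOn (fun x : ℝ => (1 / q : ℝ) • deriv Kf (x / q)) (Ici 1) := by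
      have h9 : ContinuousOn (fun x : ℝ => deriv Kf (x / q)) (Ici 1) := by
        have h0 : ContinuousOn (fun x : ℝ => x / q) (Ici 1) :=
          (continuous_id.div_const q).continuousOn
        refine hcont.comp h0 ?_
        intro x hx
        rw [mem_Ici] at hx
        exact div_pos (by linarith) hq0
      exact h9.const_smul (1 / q : ℝ)
    refine h1.congr fun x hx => ?_
    rw [mem_Ici] at hx
    exact (hgd x (by linarith)).deriv
  have hLF' : HasSum (fun J : (Ideal (𝓞 K))⁰ => ψ J * g (nm J))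
      (gM M s * crr kp (M : ℤ) ν s * ((f : ℂ) ^ 2 * D) ^ (s / 2) * F s) := by
    rw [hg]
    exact hLF
  obtain ⟨hint, hval⟩ := hABS K σ σ' D f kp ν ψ hD hR g _ c₁ _ hc₁p hgcont hM hLF'
  have hpt : ∀ x : ℝ, 1 < x → ‖Sc ψ x * deriv g x‖ ≤ (2 * C₁ * T ^ k₁ * E₀ * q ^ (1 / 2 + κ)) *
      (‖Sc ψ x‖ * x ^ (-(3 / 2) + κ) * Real.exp (-(c * x / (q * T)))) := by
    intro x hx
    have hx0 : 0 < x := by linarith
    obtain ⟨-, -, hb2⟩ := hder (x / q) (by positivity)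
    rw [hexp x] at hb2
    have h6 : Real.exp (-(c₁ * x)) = Real.exp (-(c * x / (q * T))) := by
      congr 1
      rw [hc₁]
      ring
    rw [h6] at hb2
    rw [norm_mul, (hgd x hx0).deriv, norm_smul, Real.norm_of_nonneg (by positivity)]
    have h1 := rpow_div_bd x q (-s.re - 1) κ hx.le hq1 (by linarith) (by linarith)
    have h2 := rpow_div_bd x q (s.re - 2) κ hx.le hq1 (by linarith) (by linarith)
    have h3 : 1 / q * ‖deriv Kf (x / q)‖ ≤ C₁ * T ^ k₁ * E₀ *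
        (2 * (q ^ (1 / 2 + κ) * x ^ (-(3 / 2) + κ))) * Real.exp (-(c * x / (q * T))) := by
      calc 1 / q * ‖deriv Kf (x / q)‖ ≤ 1 / q * (C₁ * T ^ k₁ * E₀ *
            ((x / q) ^ (-s.re - 1) + (x / q) ^ (s.re - 2)) *
            Real.exp (-(c * x / (q * T)))) := mul_le_mul_of_nonneg_left hb2 (by positivity)
        _ = C₁ * T ^ k₁ * E₀ * ((x / q) ^ (-s.re - 1) / q + (x / q) ^ (s.re - 2) / q) *
            Real.exp (-(c * x / (q * T))) := by ring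
        _ ≤ _ := by
            refine mul_le_mul_of_nonneg_right ?_ (Real.exp_pos _).le
            refine mul_le_mul_of_nonneg_left ?_ (by positivity)
            linarith
    calc ‖Sc ψ x‖ * (1 / q * ‖deriv Kf (x / q)‖) ≤ ‖Sc ψ x‖ * (C₁ * T ^ k₁ * E₀ *
        (2 * (q ^ (1 / 2 + κ) * x ^ (-(3 / 2) + κ))) * Real.exp (-(c * x / (q * T)))) :=
          mul_le_mul_of_nonneg_left h3 (norm_nonneg _)
      _ = _ := by ring
  obtain ⟨b, hb⟩ : ∃ b : ℝ, b = ‖crr kp (M : ℤ) ν s‖ := ⟨_, rfl⟩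
  rw [← hb] at hM2
  have hnorm : ‖gM M s‖ * b * B ^ (s.re / 2) * ‖F s‖ ≤
      2 * C₁ * T ^ k₁ * E₀ * q ^ (1 / 2 + κ) * I := by
    have h1 : ‖gM M s * crr kp (M : ℤ) ν s * ((f : ℂ) ^ 2 * D) ^ (s / 2) * F s‖ =
        ‖gM M s‖ * b * B ^ (s.re / 2) * ‖F s‖ := by
      have h3 : ((f : ℂ) ^ 2 * D) = ((f ^ 2 * D : ℕ) : ℂ) := by push_cast; ring
      have h4 : 0 < f ^ 2 * D := Nat.mul_pos (pow_pos hR.pos 2) hD.pos
      have h5 : ((f ^ 2 * D : ℕ) : ℝ) = B := by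
        rw [hB]
        push_cast
        ring
      rw [h3, norm_mul, norm_mul, norm_mul, Complex.norm_natCast_cpow_of_pos h4, h5, ← hb]
      congr 3
      have h2 : s / 2 = ((1 / 2 : ℝ) : ℂ) * s := by push_cast; ring
      rw [h2, Complex.re_ofReal_mul]
      ring
    rw [← h1, hval, norm_neg, hIdef, ← integral_const_mul]
    refine (norm_integral_le_integral_norm _).trans ?_
    refine setIntegral_mono_on hint.norm (hI.const_mul _) measurableSet_Ioi fun x hx => ?_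
    exact hpt x hx
  have hI0 : 0 ≤ I := by
    rw [hIdef]
    refine setIntegral_nonneg measurableSet_Ioi fun x hx => ?_
    rw [mem_Ioi] at hx
    have : 0 < x := by linarith
    positivity
  have hGs0 := hG M s hs8
  rw [← hT₀, ← hE₀] at hGs0
  have hGs : E₀ ≤ C₂ * T ^ k₂ * ‖gM M s‖ := by
    refine hGs0.trans (mul_le_mul_of_nonneg_right ?_ (norm_nonneg _))
    exact mul_le_mul_of_nonneg_left (pow_le_pow_left₀ (by linarith) hTT _) hC₂.le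
  have hGpos : 0 < ‖gM M s‖ := by
    by_contra hcon
    push Not at hcon
    have h1 : C₂ * T ^ k₂ * ‖gM M s‖ ≤ 0 :=
      mul_nonpos_of_nonneg_of_nonpos (by positivity) hcon
    linarith
  have hqD : q ^ (1 / 2 + κ) = B ^ (1 / 4 - κ / 2) * B ^ κ := by
    rw [hqB, Real.sqrt_eq_rpow, ← Real.rpow_mul hB0.le, ← Real.rpow_add hB0]
    congr 1
    ring
  have hDl : B ^ (1 / 4 - κ / 2) ≤ B ^ (s.re / 2) :=
    Real.rpow_le_rpow_of_exponent_le hB1 (by linarith)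
  have hDp : 0 < B ^ (1 / 4 - κ / 2) := Real.rpow_pos_of_pos hB0 _
  have hDκ : 0 < B ^ κ := Real.rpow_pos_of_pos hB0 _
  have hb0 : 0 ≤ b := by rw [hb]; exact norm_nonneg _
  have hmain : (‖gM M s‖ * B ^ (1 / 4 - κ / 2)) * ‖F s‖ ≤
      (‖gM M s‖ * B ^ (1 / 4 - κ / 2)) *
        (C₀ * W ^ k₀ * (2 * C₁ * C₂ * T ^ (k₁ + k₂) * B ^ κ * I)) := by
    calc (‖gM M s‖ * B ^ (1 / 4 - κ / 2)) * ‖F s‖ =
          1 * ((‖gM M s‖ * B ^ (1 / 4 - κ / 2)) * ‖F s‖) := (one_mul _).symm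
      _ ≤ C₀ * W ^ k₀ * b * ((‖gM M s‖ * B ^ (1 / 4 - κ / 2)) * ‖F s‖) :=
          mul_le_mul_of_nonneg_right hM2 (by positivity)
      _ = C₀ * W ^ k₀ * (((‖gM M s‖ * b) * B ^ (1 / 4 - κ / 2)) * ‖F s‖) := by ring
      _ ≤ C₀ * W ^ k₀ * (((‖gM M s‖ * b) * B ^ (s.re / 2)) * ‖F s‖) := by
          refine mul_le_mul_of_nonneg_left ?_ (by positivity)
          refine mul_le_mul_of_nonneg_right ?_ (norm_nonneg _)
          exact mul_le_mul_of_nonneg_left hDl (by positivity)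
      _ ≤ C₀ * W ^ k₀ * (2 * C₁ * T ^ k₁ * E₀ * q ^ (1 / 2 + κ) * I) :=
          mul_le_mul_of_nonneg_left hnorm (by positivity)
      _ = C₀ * W ^ k₀ * ((2 * C₁ * T ^ k₁ * q ^ (1 / 2 + κ) * I) * E₀) := by ring
      _ ≤ C₀ * W ^ k₀ * ((2 * C₁ * T ^ k₁ * q ^ (1 / 2 + κ) * I) *
          (C₂ * T ^ k₂ * ‖gM M s‖)) := by
          refine mul_le_mul_of_nonneg_left ?_ (by positivity)
          refine mul_le_mul_of_nonneg_left hGs ?_
          positivity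
      _ = _ := by
          rw [hqD, pow_add]
          ring
  have hfin := le_of_mul_le_mul_left hmain (by positivity)
  refine hfin.trans (le_of_eq ?_)
  rw [hT, mul_pow, ← pow_mul, pow_add W]
  ring

end Pool.Agent.H48.DF
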